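import Pool.Agent.J4H20.LV.Stm

/-! # Project LV, piece (IRR): Eisenstein at `T` in `X - b` -/

set_option autoImplicit false

namespace Pool.Agent.J4H28.LV

open Polynomial Pool.Agent.J4H20.LV

/-- Eisenstein's criterion at a prime `T` and a point `b`, for an integer polynomial that need not be primitive: the image
over `ℚ` is irreducible -/
theorem eis (P : ℤ[X]) (b : ℤ) (T n : ℕ) (a : ℤ) (hT : T.Prime) (hn : 0 < n) (hd : P.natDegree = n)
    (hl : ¬ (T : ℤ) ∣ P.leadingCoeff) (h1 : C (T : ℤ) ∣ P - C a * (X - C b) ^ n)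
    (h2 : ¬ (T : ℤ) ^ 2 ∣ P.eval b) : Irreducible (P.map (Int.castRingHom ℚ)) := by
  have hTp : Prime (T : ℤ) := Nat.prime_iff_prime_int.mp hT
  obtain ⟨R, hR⟩ := h1
  set f : ℤ[X] := taylor b P with hf
  have hfd : f.natDegree = n := by rw [hf, natDegree_taylor, hd]
  have hfl : f.leadingCoeff = P.leadingCoeff := by
    rw [leadingCoeff, leadingCoeff, hfd, hd, hf]
    have := taylor_coeff b P n
    rw [this]
    have e1 : (hasseDeriv n P) = C P.leadingCoeff := by
      rw [← hd]
      have := hasseDeriv_natDegree_eq_C P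
      exact this
    rw [e1, eval_C, leadingCoeff, hd]
  have hfc : ∀ i < n, (T : ℤ) ∣ f.coeff i := by
    intro i hi
    have e1 : P = C a * (X - C b) ^ n + C (T : ℤ) * R := by rw [← hR]; ring
    have e2 : f = C a * X ^ n + C (T : ℤ) * taylor b R := by
      rw [hf, e1, map_add, taylor_mul, taylor_mul, taylor_pow, map_sub, taylor_X, taylor_C, taylor_C,
        taylor_C, add_sub_cancel_right]
    rw [e2, coeff_add, coeff_C_mul, coeff_C_mul, coeff_X_pow, if_neg hi.ne, mul_zero, zero_add]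
    exact dvd_mul_right _ _
  have hf0 : ¬ (T : ℤ) ^ 2 ∣ f.coeff 0 := by
    rw [hf, taylor_coeff_zero]; exact h2
  -- the content
  set u : ℤ := f.content with hu
  have hfu : f = C u * f.primPart := f.eq_C_content_mul_primPart
  have hfne : f ≠ 0 := by
    intro h0
    rw [h0] at hfd
    simp at hfd
    omega
  have hu0 : u ≠ 0 := by
    rw [hu]
    exact fun h => hfne (content_eq_zero_iff.mp h)
  have hpd : f.primPart.natDegree = n := by rw [natDegree_primPart, hfd]
  have hpl : f.leadingCoeff = u * f.primPart.leadingCoeff := by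
    conv_lhs => rw [hfu]
    rw [leadingCoeff_mul, leadingCoeff_C]
  have hTu : ¬ (T : ℤ) ∣ u := fun h => hl (by rw [← hfl, hpl]; exact h.mul_right _)
  have hirr : Irreducible f.primPart := by
    have hP : (Ideal.span {(T : ℤ)}).IsPrime := by
      rw [Ideal.span_singleton_prime hTp.ne_zero]; exact hTp
    refine irreducible_of_eisenstein_criterion hP ?_ ?_ ?_ ?_ f.isPrimitive_primPart
    · rw [Ideal.mem_span_singleton]
      intro h
      exact hl (by rw [← hfl, hpl]; exact h.mul_left _)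
    · intro i hi
      rw [Ideal.mem_span_singleton]
      have hi' : i < n := by
        rw [← hpd]
        exact (Nat.cast_lt.mp (lt_of_lt_of_le hi degree_le_natDegree))
      have h3 := hfc i hi'
      rw [hfu, coeff_C_mul] at h3
      rcases hTp.dvd_or_dvd h3 with h4 | h4
      · exact absurd h4 hTu
      · exact h4
    · rw [← natDegree_pos_iff_degree_pos, hpd]; exact hn
    · rw [Ideal.span_singleton_pow, Ideal.mem_span_singleton]
      intro h
      apply hf0
      rw [hfu, coeff_C_mul]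
      exact h.mul_left _
  have hirrQ : Irreducible (f.primPart.map (Int.castRingHom ℚ)) :=
    (IsPrimitive.Int.irreducible_iff_irreducible_map_cast f.isPrimitive_primPart).mp hirr
  have hfQ : Irreducible (f.map (Int.castRingHom ℚ)) := by
    rw [hfu, Polynomial.map_mul, Polynomial.map_C]
    have hun : IsUnit (C ((Int.castRingHom ℚ) u)) := by
      rw [isUnit_C]
      exact (isUnit_iff_ne_zero.mpr (by simpa using hu0))
    exact (irreducible_isUnit_mul hun).mpr hirrQ
  have hmap : f.map (Int.castRingHom ℚ) = taylorEquiv (b : ℚ) (P.map (Int.castRingHom ℚ)) := by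
    rw [hf]
    simp only [taylorEquiv]
    rw [taylor_apply]
    simp [taylor_apply, Polynomial.map_comp]
  rw [hmap] at hfQ
  exact (MulEquiv.irreducible_iff (taylorEquiv (b : ℚ))).mp hfQ

/-- (IRR) -/
theorem t_IRR (hN : S_NAT) : S_IRR := by
  intro m e j k D c M hc hM hTM hT2
  obtain ⟨hd, hl⟩ := hN m e j k D c M hc hM
  have hTp : Prime (D.T : ℤ) := Nat.prime_iff_prime_int.mp D.hT
  obtain ⟨w, hw⟩ := hT2
  have hcw : c = D.s * M + (D.T : ℤ) ^ 2 * w := by linarith
  have hm := D.hm
  have hje := D.hje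
  have hn : 0 < (m - 1) * e + j := by
    have : 0 < (m - 1) * e := Nat.mul_pos (by omega) (by omega)
    omega
  have hTm : ¬ (D.T : ℤ) ∣ m := fun h => D.hTm (h.mul_right _)
  have hTs : ¬ (D.T : ℤ) ∣ D.s := fun h => D.hTm (h.mul_left _)
  have hTc : ¬ (D.T : ℤ) ∣ c := by
    intro h
    have : (D.T : ℤ) ∣ D.s * M := by
      have e1 : D.s * M = c - (D.T : ℤ) * ((D.T : ℤ) * w) := by rw [hcw]; ring
      rw [e1]
      exact dvd_sub h (dvd_mul_right _ _)
    rcases hTp.dvd_or_dvd this with h1 | h1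
    · exact hTs h1
    · exact hTM h1
  -- modulo `T ^ 2`
  have key : C ((D.T : ℤ) ^ 2) ∣ HL m D.g D.r D.h c M -
      C (M ^ m) * ((D.g + C D.s * D.h) ^ m - (D.g ^ m + D.r)) := by
    have e1 : HL m D.g D.r D.h c M - C (M ^ m) * ((D.g + C D.s * D.h) ^ m - (D.g ^ m + D.r)) =
        (C M * D.g + C c * D.h) ^ m - (C M * D.g + C (D.s * M) * D.h) ^ m := by
      unfold HL
      have e2 : C M * D.g + C (D.s * M) * D.h = C M * (D.g + C D.s * D.h) := by
        rw [C_mul]; ring
      rw [e2, mul_pow, ← C_pow]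
      ring
    rw [e1]
    refine dvd_trans ?_ (sub_dvd_pow_sub_pow _ _ m)
    have e3 : C M * D.g + C c * D.h - (C M * D.g + C (D.s * M) * D.h) =
        C ((D.T : ℤ) ^ 2) * (C w * D.h) := by
      have e4 : C c = C (D.s * M) + C ((D.T : ℤ) ^ 2) * C w := by
        rw [← C_mul, ← C_add, ← hcw]
      rw [e4]
      ring
    rw [e3]
    exact dvd_mul_right _ _
  refine eis _ D.b D.T _ (M ^ m * (m * D.s)) D.hT hn hd ?_ ?_ ?_
  · rw [hl]
    intro h
    rcases hTp.dvd_or_dvd h with h1 | h1
    · rcases hTp.dvd_or_dvd h1 with h2 | h2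
      · exact hTm h2
      · exact hTc h2
    · exact hTM (hTp.dvd_of_dvd_pow h1)
  · have h1 : C (D.T : ℤ) ∣ HL m D.g D.r D.h c M -
        C (M ^ m) * ((D.g + C D.s * D.h) ^ m - (D.g ^ m + D.r)) := by
      refine dvd_trans ?_ key
      rw [sq, C_mul]
      exact dvd_mul_right _ _
    have h2 := D.hE1.mul_left (C (M ^ m))
    have h3 := dvd_add h1 h2
    have e5 : HL m D.g D.r D.h c M - C (M ^ m * (m * D.s)) * (X - C D.b) ^ ((m - 1) * e + j) =
        HL m D.g D.r D.h c M - C (M ^ m) * ((D.g + C D.s * D.h) ^ m - (D.g ^ m + D.r)) +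
        C (M ^ m) * ((D.g + C D.s * D.h) ^ m - (D.g ^ m + D.r) -
          C ((m : ℤ) * D.s) * (X - C D.b) ^ ((m - 1) * e + j)) := by
      rw [C_mul]
      ring
    rw [e5]
    exact h3
  · intro h
    obtain ⟨R, hR⟩ := key
    have e6 : HL m D.g D.r D.h c M = C (M ^ m) * ((D.g + C D.s * D.h) ^ m - (D.g ^ m + D.r)) +
        C ((D.T : ℤ) ^ 2) * R := by rw [← hR]; ring
    rw [e6, eval_add, eval_mul, eval_mul, eval_C, eval_C] at h
    have h4 : (D.T : ℤ) ^ 2 ∣ M ^ m * ((D.g + C D.s * D.h) ^ m - (D.g ^ m + D.r)).eval D.b :=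
      (Int.dvd_add_left (dvd_mul_right _ _)).mp h
    have hcop : IsCoprime ((D.T : ℤ) ^ 2) (M ^ m) := by
      apply IsCoprime.pow
      exact (Prime.coprime_iff_not_dvd hTp).mpr hTM
    exact D.hE2 (hcop.dvd_of_dvd_mul_left h4)

end Pool.Agent.J4H28.LV
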